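import Pool.Agent.Helper20.FS.St
import Pool.Agent.Helper20.FA.Semi

/-!
# Project SL, module UQ
-/

set_option autoImplicit false

open Topology Filter

namespace Pool.Agent.Helper29.SL

open Pool.Agent.Helper20.FA Pool.Agent.Helper20.FR Pool.Agent.Helper20.FS

attribute [local instance] IsFrechet.tag IsFrechet.csm IsFrechet.lcs IsFrechet.metr

private theorem cofinal {A : Type} [AddCommGroup A] [Module ℂ A] [TopologicalSpace A]
    [IsFrechet A] : ∃ π : ℕ → Seminorm ℂ A, (∀ i, Continuous (π i)) ∧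
      ∀ q : Seminorm ℂ A, Continuous q → ∃ i, ∀ x, q x ≤ π i x := by
  obtain ⟨V, hV⟩ := (𝓝 (0 : A)).exists_antitone_basis
  have h1 : ∀ n, ∃ v : Seminorm ℂ A, Continuous v ∧ ∀ x, v x < 1 → x ∈ V n := fun n =>
    exists_seminorm (hV.mem n)
  choose π hπ hπV using h1
  refine ⟨π, hπ, fun q hq => ?_⟩
  have h2 : {x : A | q x < 1} ∈ 𝓝 (0 : A) := by
    have h3 : IsOpen {x : A | q x < 1} := isOpen_lt hq continuous_const
    refine h3.mem_nhds ?_
    show q 0 < 1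
    rw [map_zero]
    exact one_pos
  obtain ⟨i, -, hi⟩ := hV.toHasBasis.mem_iff.1 h2
  refine ⟨i, fun x => ?_⟩
  by_contra hcon
  push Not at hcon
  obtain ⟨t, ht1, ht2⟩ := exists_between hcon
  have ht0 : 0 < t := lt_of_le_of_lt (apply_nonneg _ _) ht1
  have hsc : ∀ w : Seminorm ℂ A, w ((((t : ℝ) : ℂ))⁻¹ • x) = t⁻¹ * w x := by
    intro w
    rw [map_smul_eq_mul, norm_inv, Complex.norm_real, Real.norm_of_nonneg ht0.le]
  have h4 : π i ((((t : ℝ) : ℂ))⁻¹ • x) < 1 := by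
    rw [hsc, inv_mul_lt_iff₀ ht0, mul_one]
    exact ht1
  have h5 : q ((((t : ℝ) : ℂ))⁻¹ • x) < 1 := hi (hπV i _ h4)
  rw [hsc, inv_mul_lt_iff₀ ht0, mul_one] at h5
  linarith

theorem hUQ (hGE : StGE) : StUQ := by
  intro A _ _ _ _ _ h1 h2 p hp
  obtain ⟨π, hπ, hπq⟩ := cofinal (A := A)
  have claim : ∃ q : Seminorm ℂ A, Continuous q ∧ ∀ r : Seminorm ℂ A, Good r → StrictSem r →
      (∀ x, p x ≤ r x) → ∀ χ : A →ₐ[ℂ] ℂ, (∀ a, ‖χ a‖ ≤ p a) →
        ∃ α, χ α = 1 ∧ ∃ C : ℝ, ∀ b, r (α * b) ≤ C * q b := by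
    by_contra hcon
    have h3 : ∀ i, ∃ (r : Seminorm ℂ A) (χ : A →ₐ[ℂ] ℂ), Good r ∧ StrictSem r ∧
        (∀ x, p x ≤ r x) ∧ (∀ a, ‖χ a‖ ≤ p a) ∧
        ¬ ∃ α, χ α = 1 ∧ ∃ C : ℝ, ∀ b, r (α * b) ≤ C * π i b := by
      intro i
      by_contra hi
      apply hcon
      refine ⟨π i, hπ i, fun r hr hs hpr χ hχ => ?_⟩
      by_contra hno
      exact hi ⟨r, χ, hr, hs, hpr, hχ, hno⟩
    choose r χ hr hs hpr hχ hno using h3
    obtain ⟨q, hq, H⟩ := h2 χ p hp.1 hχ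
    obtain ⟨i, hi⟩ := hπq q hq
    obtain ⟨α, hα, C, hC⟩ := H (r i) (hr i) (hs i) (hpr i) i
    refine hno i ⟨α, hα, |C|, fun b => ?_⟩
    calc r i (α * b) ≤ C * q b := hC b
      _ ≤ |C| * q b := mul_le_mul_of_nonneg_right (le_abs_self _) (apply_nonneg _ _)
      _ ≤ |C| * π i b := mul_le_mul_of_nonneg_left (hi b) (abs_nonneg _)
  obtain ⟨q, hq, H⟩ := claim
  refine ⟨q, hq, fun r hr => ?_⟩
  have hc : Continuous (r + p : Seminorm ℂ A) := by
    have : ⇑(r + p : Seminorm ℂ A) = fun x => r x + p x := rfl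
    rw [this]
    exact hr.1.add hp.1
  obtain ⟨r', hr', hs', hle⟩ := h1 (r + p) hc
  have hle' : ∀ x, r x + p x ≤ r' x := hle
  have hrr : ∀ x, r x ≤ r' x := fun x => by
    have := apply_nonneg p x
    linarith [hle' x]
  have hpr : ∀ x, p x ≤ r' x := fun x => by
    have := apply_nonneg r x
    linarith [hle' x]
  let I : Ideal A :=
    { carrier := {x | ∃ C : ℝ, ∀ b, r' (x * b) ≤ C * q b}
      zero_mem' := ⟨0, fun b => by simp⟩
      add_mem' := by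
        rintro x y ⟨C, hC⟩ ⟨D, hD⟩
        refine ⟨C + D, fun b => ?_⟩
        rw [add_mul]
        calc r' (x * b + y * b) ≤ r' (x * b) + r' (y * b) := map_add_le_add _ _ _
          _ ≤ C * q b + D * q b := add_le_add (hC b) (hD b)
          _ = (C + D) * q b := by ring
      smul_mem' := by
        rintro c x ⟨C, hC⟩
        refine ⟨r' c * C, fun b => ?_⟩
        rw [smul_eq_mul, mul_assoc]
        calc r' (c * (x * b)) ≤ r' c * r' (x * b) := hr'.2 _ _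
          _ ≤ r' c * (C * q b) := mul_le_mul_of_nonneg_left (hC b) (apply_nonneg _ _)
          _ = r' c * C * q b := by ring }
  have hI : ∀ x, x ∈ I ↔ ∃ C : ℝ, ∀ b, r' (x * b) ≤ C * q b := fun x => Iff.rfl
  by_contra hno
  have h4 : ∀ x ∈ I, 1 / 2 ≤ p (1 - x) := by
    intro x hx
    by_contra hlt
    push Not at hlt
    obtain ⟨C, hC⟩ := (hI x).1 hx
    exact hno ⟨x, hlt, C, fun b => (hrr _).trans (hC b)⟩
  obtain ⟨χ, hχ, hχI⟩ := hGE A p hp.2 I h4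
  obtain ⟨α, hα, hαC⟩ := H r' hr' hs' hpr χ hχ
  have h5 := hχI α ((hI α).2 hαC)
  rw [h5] at hα
  exact zero_ne_one hα

end Pool.Agent.Helper29.SL
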